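import Pool.Agent.L5helper87.SW.Size

/-!
# Symmetric circuits with small supports: the general induction, and the number of gates
-/

set_option autoImplicit false

open Equiv Finset

namespace Pool.Agent.L5helper87.TD

open Pool.Agent.L5helper42.Sym Pool.Agent.L5helper87.SW

variable {β : Type} [Fintype β] [DecidableEq β]
variable {ι : Type} [Fintype ι] {s : ℕ} (C : Circ ι s) (ρ : Perm β →* Perm ι)

/-- A gate of a symmetric circuit has the same value on inputs which look the same on its support,
provided that all averages of local functions agree. -/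
theorem same_value_gen {A : Type} (x : A → ι → Bool) (act : Perm β → A → A)
    (R : Finset β → A → A → Prop) {t : ℕ}
    (hx : ∀ π a, x (act π a) = fun e => x a ((ρ π).symm e))
    (hin : ∀ e : ι, ∃ B' : Finset β, B'.card ≤ t ∧ ∀ a a', R B' a a' → x a e = x a' e)
    (havg : ∀ (G : A → ℕ) (B' : Finset β), B'.card ≤ t → (∀ a a', R B' a a' → G a = G a') →
      ∀ B : Finset β, B.card ≤ t → ∀ a a', R B a a' →
        ∑ π ∈ Gam B, G (act π a) = ∑ π ∈ Gam B, G (act π a'))
    (hsup : ∀ g, (C.gsupp ρ g).card ≤ t) (g : Fin s) :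
    ∀ a a', R (C.gsupp ρ g) a a' → C.val (x a) g = C.val (x a') g := by
  classical
  induction g using WellFoundedLT.induction with
  | ind g ih =>
    intro a a' haa
    -- supports of the nodes
    have hnode : ∀ u : ι ⊕ Fin s, C.wires g u ≠ 0 → ∃ B' : Finset β, B'.card ≤ t ∧
        ∀ a a', R B' a a' → C.nval (x a) u = C.nval (x a') u := by
      intro u hu
      cases u with
      | inl e => exact hin e
      | inr k => exact ⟨C.gsupp ρ k, hsup k, ih k (C.acyclic g k hu)⟩
    -- the counts are invariant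
    have hcount : ∀ a, ∀ π ∈ Gam (C.gsupp ρ g),
        C.count (x (act π a)) g = C.count (x a) g := by
      intro a π hπ
      rw [mem_Gam] at hπ
      obtain ⟨σ, hσ, hσg⟩ := C.exists_lift ρ g hπ.2 hπ.1
      rw [hx]
      unfold Circ.count
      rw [← Equiv.sum_comp (Equiv.sumCongr (ρ π) σ)]
      refine sum_congr rfl fun u _ => ?_
      have hw : C.wires g (Equiv.sumCongr (ρ π) σ u) = C.wires g u := by
        have := (hσ.2 g).2 u
        rw [hσg] at this
        exact this
      have hv : C.nval (fun e => x a ((ρ π).symm e)) (Equiv.sumCongr (ρ π) σ u) =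
          C.nval (x a) u := C.nval_aut hσ _ u
      rw [hw, hv]
    have hcards : (Gam (C.gsupp ρ g)).card ≠ 0 := by
      rw [Finset.card_ne_zero]
      exact ⟨1, mem_Gam.2 ⟨map_one _, fun _ _ => rfl⟩⟩
    have hsum : ∀ a, (Gam (C.gsupp ρ g)).card * C.count (x a) g =
        ∑ u, ∑ π ∈ Gam (C.gsupp ρ g), if C.nval (x (act π a)) u then C.wires g u else 0 := by
      intro a
      rw [Finset.sum_comm, ← smul_eq_mul, ← Finset.sum_const]
      refine sum_congr rfl fun π hπ => ?_
      rw [← hcount a π hπ]
      rfl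
    have hmain : C.count (x a) g = C.count (x a') g := by
      have h3 : (Gam (C.gsupp ρ g)).card * C.count (x a) g =
          (Gam (C.gsupp ρ g)).card * C.count (x a') g := by
        rw [hsum, hsum]
        refine sum_congr rfl fun u _ => ?_
        by_cases hu : C.wires g u = 0
        · simp [hu]
        · obtain ⟨B', hB', hB'2⟩ := hnode u hu
          exact havg (fun a => if C.nval (x a) u then C.wires g u else 0) B' hB'
            (fun a a' h => by simp only [hB'2 a a' h]) _ (hsup g) a a' haa
      exact Nat.eq_of_mul_eq_mul_left (Nat.pos_of_ne_zero hcards) h3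
    rw [Circ.val_eq, Circ.val_eq, hmain]

/-- A gate with a support of more than `t` elements forces many gates besides the output gate. -/
theorem size_of_support' (hC : C.Inv ρ) {t : ℕ} (g : Fin s)
    (hg : t + 1 ≤ (C.gsupp ρ g).card) :
    Fintype.card β ≤ 6 * Nat.log 2 (s ^ 2) + 1 ∨ (Fintype.card β).choose (t + 1) + 1 ≤ s := by
  classical
  by_cases hcase : Fintype.card β ≤ 6 * Nat.log 2 (s ^ 2) + 1
  · exact Or.inl hcase
  right
  push Not at hcase
  have hsup := C.gsupp_card_le ρ hC
  refine (Nat.add_le_add_right (choose_mono_half hg (by have := hsup g; omega)) 1).trans ?_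
  have hex : ∀ X : Finset β, X.card = (C.gsupp ρ g).card → ∃ g' : Fin s, C.gsupp ρ g' = X := by
    intro X hX
    obtain ⟨τ, -, hτ⟩ := exists_match (fun x => decide (x ∈ C.gsupp ρ g)) (fun x => decide (x ∈ X)) ∅
      (fun b hb => absurd hb (notMem_empty b)) (fun a => by
        cases a with
        | true => simp [hX]
        | false =>
          simp only [decide_eq_false_iff_not]
          rw [← compl_filter, ← compl_filter, card_compl, card_compl]
          simp [hX])
    obtain ⟨σ, hσ⟩ := hC τ⁻¹
    refine ⟨σ g, ?_⟩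
    rw [gsupp_image C ρ (g := g) (π := τ⁻¹) (σ := σ) hσ (by have := hsup g; omega)
      (by have := hsup (σ g); omega)]
    ext x
    rw [mem_map_equiv]
    have := hτ x
    rw [decide_eq_decide] at this
    exact this
  have : Nonempty (Fin s) := ⟨g⟩
  choose! F hF using hex
  have h1 : (univ.powersetCard (C.gsupp ρ g).card : Finset (Finset β)).card ≤
      ((univ : Finset (Fin s)).erase C.out).card := by
    refine Finset.card_le_card_of_injOn F (fun X hX => ?_) ?_
    · rw [mem_coe, mem_powersetCard] at hX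
      rw [mem_coe, mem_erase]
      refine ⟨fun h => ?_, mem_univ _⟩
      have h2 := hF X hX.2
      rw [h, C.gsupp_out ρ hC] at h2
      rw [← h2, card_empty] at hX
      omega
    · intro X hX Y hY h
      rw [mem_coe, mem_powersetCard] at hX hY
      rw [← hF X hX.2, ← hF Y hY.2, h]
  rw [card_powersetCard, card_univ, card_erase_of_mem (mem_univ _), card_univ, Fintype.card_fin] at h1
  have : 0 < s := by
    have := C.out.2
    omega
  omega

/-- Numerical bound. -/
lemma log_bound {N s : ℕ} (hN : 300 ≤ N) (hs : s ≤ N.choose 3) : 6 * Nat.log 2 (s ^ 2) + 1 < N := by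
  obtain ⟨M, hM⟩ : ∃ M, M = (N - 2) / 6 := ⟨_, rfl⟩
  have h1 : 49 ≤ M := by omega
  have h2 : N ≤ 6 * (M + 2) := by omega
  have h3 : 6 * M + 2 ≤ N := by omega
  have key : ∀ M : ℕ, 49 ≤ M → 1296 * (M + 2) ^ 6 < 2 ^ M := by
    intro M hM
    induction M, hM using Nat.le_induction with
    | base => norm_num
    | succ m hm ih =>
      have h4 : (m + 1 + 2) ^ 6 ≤ 2 * (m + 2) ^ 6 := by
        obtain ⟨q, rfl⟩ : ∃ q, m = q + 49 := ⟨m - 49, by omega⟩
        nlinarith [sq_nonneg (q : ℤ), pow_nonneg (Nat.zero_le q) 3, pow_nonneg (Nat.zero_le q) 4,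
          pow_nonneg (Nat.zero_le q) 5, pow_nonneg (Nat.zero_le q) 6]
      calc 1296 * (m + 1 + 2) ^ 6 ≤ 1296 * (2 * (m + 2) ^ 6) := Nat.mul_le_mul_left _ h4
        _ = 2 * (1296 * (m + 2) ^ 6) := by ring
        _ < 2 * 2 ^ m := by omega
        _ = 2 ^ (m + 1) := by ring
  have h5 : 6 * N.choose 3 ≤ N ^ 3 := by
    have := Nat.descFactorial_le_pow N 3
    rw [Nat.descFactorial_eq_factorial_mul_choose] at this
    simpa [Nat.factorial] using this
  have h6 : s ^ 2 < 2 ^ M := by
    have h7 : 36 * s ^ 2 ≤ 36 * (1296 * (M + 2) ^ 6) := by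
      calc 36 * s ^ 2 = (6 * s) ^ 2 := by ring
        _ ≤ (N ^ 3) ^ 2 := Nat.pow_le_pow_left ((Nat.mul_le_mul_left 6 hs).trans h5) 2
        _ = N ^ 6 := by ring
        _ ≤ (6 * (M + 2)) ^ 6 := Nat.pow_le_pow_left h2 6
        _ = 36 * (1296 * (M + 2) ^ 6) := by ring
    have := key M h1
    omega
  have h8 : Nat.log 2 (s ^ 2) < M := by
    rcases Nat.eq_zero_or_pos (s ^ 2) with h | h
    · rw [h]
      simp
      omega
    · exact (Nat.log_lt_iff_lt_pow (by norm_num) (by omega)).2 h6
  omega

end Pool.Agent.L5helper87.TD
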