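import Pool.Agent.L5helper87.TD.Reg

/-!
# The lower bound for symmetric circuits on regular graphs
-/

set_option autoImplicit false

open Equiv Finset

namespace Pool.Agent.L5helper87.TD

open Pool.Agent.L5helper42.Sym Pool.Agent.L5helper87.SW

/-- The permutation of the unordered pairs given by a permutation of the vertices. -/
def pairPerm {V : Type} (π : Perm V) : Perm (Sym2 V) where
  toFun := Sym2.map π
  invFun := Sym2.map π.symm
  left_inv e := by
    rw [Sym2.map_map]
    simp
  right_inv e := by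
    rw [Sym2.map_map]
    simp

lemma pairPerm_mk {V : Type} (π : Perm V) (u v : V) : pairPerm π s(u, v) = s(π u, π v) := rfl

lemma pairPerm_symm_mk {V : Type} (π : Perm V) (u v : V) :
    (pairPerm π).symm s(u, v) = s(π.symm u, π.symm v) := rfl

/-- `pairPerm` as a homomorphism. -/
def pairHom (V : Type) : Perm V →* Perm (Sym2 V) where
  toFun := pairPerm
  map_one' := by
    ext e
    induction e using Sym2.ind with
    | _ u v => rfl
  map_mul' π π' := by
    ext e
    induction e using Sym2.ind with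
    | _ u v => rfl

open Classical in
/-- The adjacency matrix of a graph: one bit for each pair of vertices. -/
noncomputable def bits {V : Type} (G : SimpleGraph V) : Sym2 V → Bool := fun e => decide (e ∈ G.edgeSet)

/-- A circuit is symmetric on the set `D` of vertices if every permutation of the vertices which
fixes the vertices outside of `D` extends to an automorphism of the circuit. -/
def SymmetricOn {n s : ℕ} (C : Circ (Sym2 (Fin n)) s) (D : Finset (Fin n)) : Prop :=
  ∀ π : Perm (Fin n), (∀ v, v ∉ D → π v = v) → ∃ σ : Perm (Fin s), C.IsAut (pairPerm π) σ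

/-- All edges of `G` are inside `D`, and each vertex in `D` has `d` neighbours. -/
def RegularOn {n : ℕ} (D : Finset (Fin n)) (d : ℕ) (G : SimpleGraph (Fin n)) : Prop :=
  (∀ u v, G.Adj u v → u ∈ D ∧ v ∈ D) ∧ ∀ v ∈ D, Nat.card {w // G.Adj v w} = d

variable {n s : ℕ} {D : Finset (Fin n)} {d : ℕ}

/-- The graph on `Fin n` given by a graph on `D`. -/
def ext (a : RegGraph {v // v ∈ D} d) : SimpleGraph (Fin n) :=
  a.1.map (Function.Embedding.subtype _)

lemma ext_adj (a : RegGraph {v // v ∈ D} d) (u v : Fin n) :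
    (ext a).Adj u v ↔ ∃ (hu : u ∈ D) (hv : v ∈ D), a.1.Adj ⟨u, hu⟩ ⟨v, hv⟩ := by
  unfold ext
  rw [SimpleGraph.map_adj]
  constructor
  · rintro ⟨⟨u', hu⟩, ⟨v', hv⟩, h, h1, h2⟩
    simp only [Function.Embedding.subtype_apply] at h1 h2
    subst h1 h2
    exact ⟨hu, hv, h⟩
  · rintro ⟨hu, hv, h⟩
    exact ⟨⟨u, hu⟩, ⟨v, hv⟩, h, rfl, rfl⟩

lemma exists_ext {G : SimpleGraph (Fin n)} (hG : RegularOn D d G) :
    ∃ a : RegGraph {v // v ∈ D} d, ext a = G := by
  refine ⟨⟨G.comap Subtype.val, fun v => ?_⟩, ?_⟩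
  · refine (Nat.card_congr ?_).trans (hG.2 v.1 v.2)
    exact {
      toFun := fun w => ⟨w.1.1, w.2⟩
      invFun := fun w => ⟨⟨w.1, (hG.1 _ _ w.2).2⟩, w.2⟩
      left_inv := fun w => rfl
      right_inv := fun w => rfl }
  · ext u v
    refine (ext_adj _ _ _).trans ?_
    constructor
    · rintro ⟨hu, hv, h⟩
      exact h
    · intro h
      exact ⟨(hG.1 _ _ h).1, (hG.1 _ _ h).2, h⟩

lemma regularOn_ext (a : RegGraph {v // v ∈ D} d) : RegularOn D d (ext a) := by
  refine ⟨fun u v h => ?_, fun v hv => ?_⟩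
  · rw [ext_adj] at h
    exact ⟨h.1, h.2.1⟩
  · refine (Nat.card_congr ?_).trans (a.2 ⟨v, hv⟩)
    exact {
      toFun := fun w => ⟨⟨w.1, ((ext_adj _ _ _).1 w.2).2.1⟩, ((ext_adj _ _ _).1 w.2).2.2⟩
      invFun := fun w => ⟨w.1.1, (ext_adj _ _ _).2 ⟨hv, w.1.2, w.2⟩⟩
      left_inv := fun w => rfl
      right_inv := fun w => rfl }

/-- The action of the permutations of `D`. -/
def rho (D : Finset (Fin n)) : Perm {v // v ∈ D} →* Perm (Sym2 (Fin n)) :=
  (pairHom (Fin n)).comp Perm.ofSubtype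

lemma bits_rn (π : Perm {v // v ∈ D}) (a : RegGraph {v // v ∈ D} d) :
    bits (ext (rn π a)) = fun e => bits (ext a) ((rho D π).symm e) := by
  funext e
  induction e using Sym2.ind with
  | _ u v =>
    change bits (ext (rn π a)) s(u, v) = bits (ext a) s((Perm.ofSubtype π).symm u, (Perm.ofSubtype π).symm v)
    unfold bits
    rw [decide_eq_decide, SimpleGraph.mem_edgeSet, SimpleGraph.mem_edgeSet, ext_adj, ext_adj]
    have h1 : ∀ u : Fin n, (Perm.ofSubtype π).symm u ∈ D ↔ u ∈ D := by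
      intro u
      have h2 : (Perm.ofSubtype π).symm = Perm.ofSubtype π.symm := by
        change (Perm.ofSubtype π)⁻¹ = Perm.ofSubtype π⁻¹
        rw [map_inv]
      rw [h2]
      exact Perm.ofSubtype_apply_mem_iff_mem π.symm u
    have h2 : ∀ (u : Fin n) (hu : u ∈ D), (Perm.ofSubtype π).symm u = (π.symm ⟨u, hu⟩).1 := by
      intro u hu
      rw [Equiv.symm_apply_eq]
      rw [Perm.ofSubtype_apply_coe, apply_symm_apply]
    constructor
    · rintro ⟨hu, hv, h⟩
      refine ⟨(h1 u).2 hu, (h1 v).2 hv, ?_⟩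
      have e1 : (⟨(Perm.ofSubtype π).symm u, (h1 u).2 hu⟩ : {v // v ∈ D}) = π.symm ⟨u, hu⟩ :=
        Subtype.ext (h2 u hu)
      have e2 : (⟨(Perm.ofSubtype π).symm v, (h1 v).2 hv⟩ : {v // v ∈ D}) = π.symm ⟨v, hv⟩ :=
        Subtype.ext (h2 v hv)
      rw [e1, e2]
      exact h
    · rintro ⟨hu, hv, h⟩
      refine ⟨(h1 u).1 hu, (h1 v).1 hv, ?_⟩
      have e1 : (⟨(Perm.ofSubtype π).symm u, hu⟩ : {v // v ∈ D}) = π.symm ⟨u, (h1 u).1 hu⟩ :=
        Subtype.ext (h2 u _)
      have e2 : (⟨(Perm.ofSubtype π).symm v, hv⟩ : {v // v ∈ D}) = π.symm ⟨v, (h1 v).1 hv⟩ :=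
        Subtype.ext (h2 v _)
      rw [e1, e2] at h
      exact h

/-- **Few gates do not distinguish two regular graphs of the same degree.** -/
theorem same_output (hD : 300 ≤ D.card) (hs : s ≤ D.card.choose 3) (C : Circ (Sym2 (Fin n)) s)
    (hC : SymmetricOn C D) {G H : SimpleGraph (Fin n)} (hG : RegularOn D d G)
    (hH : RegularOn D d H) : C.val (bits G) C.out = C.val (bits H) C.out := by
  classical
  obtain ⟨a, rfl⟩ := exists_ext hG
  obtain ⟨a', rfl⟩ := exists_ext hH
  have hcard : Fintype.card {v // v ∈ D} = D.card := Fintype.card_coe D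
  have hinv : C.Inv (rho D) := by
    intro π
    refine hC _ fun v hv => ?_
    exact Perm.ofSubtype_apply_of_not_mem π hv
  have hsup : ∀ g, (C.gsupp (rho D) g).card ≤ 2 := by
    intro g
    by_contra hg
    push Not at hg
    have h1 := log_bound hD hs
    rcases size_of_support' C (rho D) hinv (t := 2) g hg with h2 | h2
    · rw [hcard] at h2
      omega
    · rw [hcard] at h2
      simp only [Nat.reduceAdd] at h2
      omega
  refine same_value_gen C (rho D) (fun a : RegGraph {v // v ∈ D} d => bits (ext a)) rn Agree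
    (t := 2) bits_rn (fun e => ?_) (fun G B' hB' hG B hB a a' h => ?_) hsup C.out a a' ?_
  · induction e using Sym2.ind with
    | _ u v =>
      refine ⟨univ.filter fun b => b.1 = u ∨ b.1 = v, ?_, fun a a' h => ?_⟩
      · rw [← card_map (Function.Embedding.subtype _)]
        refine (card_le_card (t := {u, v}) fun x hx => ?_).trans card_le_two
        rw [Finset.mem_map] at hx
        obtain ⟨b, hb, rfl⟩ := hx
        rw [mem_filter] at hb
        simp only [Function.Embedding.subtype_apply, mem_insert, mem_singleton]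
        exact hb.2
      · unfold bits
        rw [decide_eq_decide, SimpleGraph.mem_edgeSet, SimpleGraph.mem_edgeSet, ext_adj, ext_adj]
        refine exists_congr fun hu => exists_congr fun hv => h _ ?_ _ ?_
        · simp
        · simp
  · exact average_reg (by omega) G B' hB' hG B hB a a' h
  · intro v hv
    rw [C.gsupp_out _ hinv] at hv
    exact absurd hv (notMem_empty v)

/-! ### Circulant graphs -/

/-- The circulant graph with the differences `± t`, `t ∈ T`. -/
def circ (N : ℕ) (T : Finset ℕ) : SimpleGraph (ZMod N) where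
  Adj u v := u ≠ v ∧ ∃ t ∈ T, u - v = t ∨ v - u = t
  symm := ⟨fun _ _ h => ⟨h.1.symm, h.2.imp fun _ ht => ⟨ht.1, ht.2.symm⟩⟩⟩
  loopless := ⟨fun _ h => h.1 rfl⟩

lemma circ_adj {N : ℕ} {T : Finset ℕ} {u v : ZMod N} :
    (circ N T).Adj u v ↔ u ≠ v ∧ ∃ t ∈ T, u - v = t ∨ v - u = t := Iff.rfl

lemma circ_deg {N : ℕ} [NeZero N] {T : Finset ℕ} (hT : ∀ t ∈ T, 1 ≤ t ∧ 2 * t < N) (v : ZMod N) :
    Nat.card {w // (circ N T).Adj v w} = 2 * T.card := by
  classical
  have hcast : ∀ a b : ℕ, a < N → b < N → (a : ZMod N) = b → a = b := by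
    intro a b ha hb h
    rw [ZMod.natCast_eq_natCast_iff'] at h
    rwa [Nat.mod_eq_of_lt ha, Nat.mod_eq_of_lt hb] at h
  rw [Nat.card_eq_fintype_card, Fintype.card_subtype]
  have h1 : (univ.filter fun w => (circ N T).Adj v w) =
      (T.image fun t : ℕ => v - t) ∪ T.image fun t : ℕ => v + t := by
    ext w
    rw [mem_filter, mem_union, mem_image, mem_image, circ_adj]
    simp only [mem_univ, true_and]
    constructor
    · rintro ⟨-, t, ht, h | h⟩
      · exact Or.inl ⟨t, ht, by rw [← h]; ring⟩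
      · exact Or.inr ⟨t, ht, by rw [← h]; ring⟩
    · have hne : ∀ t ∈ T, (t : ZMod N) ≠ 0 := by
        intro t ht h
        have h2 := hT t ht
        have := hcast t 0 (by omega) (by omega) (by rw [h]; simp)
        omega
      rintro (⟨t, ht, rfl⟩ | ⟨t, ht, rfl⟩)
      · refine ⟨fun h => hne t ht ?_, t, ht, Or.inl (by ring)⟩
        rw [eq_comm, sub_eq_self] at h
        exact h
      · refine ⟨fun h => hne t ht ?_, t, ht, Or.inr (by ring)⟩
        rw [eq_comm, add_eq_left] at h
        exact h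
  rw [h1, card_union_of_disjoint, card_image_of_injOn, card_image_of_injOn]
  · ring
  · intro t ht t' ht' h
    rw [mem_coe] at ht ht'
    have h2 := hT t ht
    have h3 := hT t' ht'
    exact hcast _ _ (by omega) (by omega) (add_left_cancel h)
  · intro t ht t' ht' h
    rw [mem_coe] at ht ht'
    have h2 := hT t ht
    have h3 := hT t' ht'
    exact hcast _ _ (by omega) (by omega) (sub_right_injective h)
  · rw [disjoint_left]
    intro w hw hw'
    rw [mem_image] at hw hw'
    obtain ⟨t, ht, rfl⟩ := hw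
    obtain ⟨t', ht', h⟩ := hw'
    have h2 := hT t ht
    have h3 := hT t' ht'
    have h4 : ((t' + t : ℕ) : ZMod N) = (0 : ℕ) := by
      push_cast
      have : (t' : ZMod N) + t = (v + t') - (v - t) := by ring
      rw [this, h, sub_self]
    have := hcast _ _ (by omega) (by omega) h4
    omega

/-- A graph has a triangle. -/
def HasTriangle {V : Type} (G : SimpleGraph V) : Prop :=
  ∃ u v w, G.Adj u v ∧ G.Adj v w ∧ G.Adj u w

lemma circ_free {N : ℕ} {T : Finset ℕ} (hT : ∀ t ∈ T, Odd t ∧ 3 * t < N) :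
    ¬ HasTriangle (circ N T) := by
  rintro ⟨u, v, w, h1, h2, h3⟩
  have key : ∀ u v : ZMod N, (circ N T).Adj u v → ∃ z : ℤ, Odd z ∧ 3 * |z| < N ∧ u - v = z := by
    rintro u v ⟨-, t, ht, h | h⟩
    · refine ⟨t, by exact_mod_cast (hT t ht).1, ?_, by rw [h]; simp⟩
      rw [Nat.abs_cast]
      exact_mod_cast (hT t ht).2
    · refine ⟨-t, by simpa using (hT t ht).1, ?_, ?_⟩
      · rw [abs_neg, Nat.abs_cast]
        exact_mod_cast (hT t ht).2
      · push_cast
        rw [← h]
        ring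
  obtain ⟨a, ha1, ha2, ha3⟩ := key u v h1
  obtain ⟨b, hb1, hb2, hb3⟩ := key v w h2
  obtain ⟨c, hc1, hc2, hc3⟩ := key u w h3
  have h4 : ((a + b - c : ℤ) : ZMod N) = 0 := by
    push_cast
    rw [← ha3, ← hb3, ← hc3]
    ring
  rw [ZMod.intCast_zmod_eq_zero_iff_dvd] at h4
  have h5 : a + b - c = 0 := by
    apply Int.eq_zero_of_abs_lt_dvd h4
    have h6 : |a + b - c| ≤ |a| + |b| + |c| := by
      calc |a + b - c| ≤ |a + b| + |c| := abs_sub _ _
        _ ≤ _ := by
          have := abs_add_le a b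
          omega
    omega
  have h6 : Odd (a + b - c) := by
    rcases ha1 with ⟨x, rfl⟩
    rcases hb1 with ⟨y, rfl⟩
    rcases hc1 with ⟨z, rfl⟩
    exact ⟨x + y - z, by ring⟩
  rw [h5] at h6
  exact absurd h6 (by decide)

lemma circ_triangle {N : ℕ} {T : Finset ℕ} (hN : 3 ≤ N) (h1 : 1 ∈ T) (h2 : 2 ∈ T) :
    HasTriangle (circ N T) := by
  have : Fact (1 < N) := ⟨by omega⟩
  have h10 : (1 : ZMod N) ≠ 0 := one_ne_zero
  have h20 : (2 : ZMod N) ≠ 0 := by
    intro h
    have h3 : ((2 : ℕ) : ZMod N) = 0 := by exact_mod_cast h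
    rw [ZMod.natCast_eq_zero_iff] at h3
    have := Nat.le_of_dvd (by norm_num) h3
    omega
  refine ⟨0, 1, 2, ⟨h10.symm, 1, h1, Or.inr (by simp)⟩, ⟨?_, 1, h1, Or.inr (by norm_num)⟩,
    ⟨h20.symm, 2, h2, Or.inr (by simp)⟩⟩
  intro h
  apply h10
  calc (1 : ZMod N) = 2 - 1 := by norm_num
    _ = 0 := by rw [← h, sub_self]

/-- A regular graph on `D` with the same structure. -/
lemma exists_regular [NeZero D.card] {T : Finset ℕ} (hT : ∀ t ∈ T, 1 ≤ t ∧ 2 * t < D.card) :
    ∃ G : SimpleGraph (Fin n), RegularOn D (2 * T.card) G ∧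
      (HasTriangle G ↔ HasTriangle (circ D.card T)) := by
  classical
  have hcard : Fintype.card {v // v ∈ D} = Fintype.card (ZMod D.card) := by
    rw [ZMod.card, Fintype.card_coe]
  let e : {v // v ∈ D} ≃ ZMod D.card := Fintype.equivOfCardEq hcard
  let a : RegGraph {v // v ∈ D} (2 * T.card) := ⟨(circ D.card T).comap e, fun v =>
    (Nat.card_congr (e.subtypeEquiv fun _ => Iff.rfl)).trans (circ_deg hT (e v))⟩
  refine ⟨ext a, regularOn_ext a, ?_⟩
  constructor
  · rintro ⟨u, v, w, h1, h2, h3⟩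
    rw [ext_adj] at h1 h2 h3
    obtain ⟨hu, hv, h1⟩ := h1
    obtain ⟨hv, hw, h2⟩ := h2
    obtain ⟨hu, hw, h3⟩ := h3
    exact ⟨e ⟨u, hu⟩, e ⟨v, hv⟩, e ⟨w, hw⟩, h1, h2, h3⟩
  · rintro ⟨u, v, w, h1, h2, h3⟩
    refine ⟨e.symm u, e.symm v, e.symm w, ?_, ?_, ?_⟩
    · rw [ext_adj]
      refine ⟨(e.symm u).2, (e.symm v).2, ?_⟩
      change (circ D.card T).Adj (e (e.symm u)) (e (e.symm v))
      rwa [apply_symm_apply, apply_symm_apply]
    · rw [ext_adj]
      refine ⟨(e.symm v).2, (e.symm w).2, ?_⟩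
      change (circ D.card T).Adj (e (e.symm v)) (e (e.symm w))
      rwa [apply_symm_apply, apply_symm_apply]
    · rw [ext_adj]
      refine ⟨(e.symm u).2, (e.symm w).2, ?_⟩
      change (circ D.card T).Adj (e (e.symm u)) (e (e.symm w))
      rwa [apply_symm_apply, apply_symm_apply]

/-- Regular graphs with and without triangles, of all even degrees between `4` and `|D| / 3`. -/
theorem exists_pair {j : ℕ} (hj : 2 ≤ j) (hjD : 6 * j ≤ D.card) :
    (∃ G : SimpleGraph (Fin n), RegularOn D (2 * j) G ∧ HasTriangle G) ∧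
      ∃ G : SimpleGraph (Fin n), RegularOn D (2 * j) G ∧ ¬ HasTriangle G := by
  have : NeZero D.card := ⟨by omega⟩
  constructor
  · obtain ⟨G, h1, h2⟩ := exists_regular (D := D) (T := Finset.Icc 1 j) (fun t ht => by
      rw [mem_Icc] at ht
      omega)
    rw [Nat.card_Icc, Nat.add_sub_cancel] at h1
    exact ⟨G, h1, h2.2 (circ_triangle (by omega) (by rw [mem_Icc]; omega) (by rw [mem_Icc]; omega))⟩
  · obtain ⟨G, h1, h2⟩ := exists_regular (D := D) (T := (Finset.range j).image fun i => 2 * i + 1)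
      (fun t ht => by
        rw [mem_image] at ht
        obtain ⟨i, hi, rfl⟩ := ht
        rw [mem_range] at hi
        omega)
    rw [card_image_of_injective _ (fun a b h => by simpa using h), card_range] at h1
    refine ⟨G, h1, fun h => circ_free (fun t ht => ?_) (h2.1 h)⟩
    rw [mem_image] at ht
    obtain ⟨i, hi, rfl⟩ := ht
    rw [mem_range] at hi
    exact ⟨⟨i, rfl⟩, by omega⟩

end Pool.Agent.L5helper87.TD
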