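import Pool.Agent.L5helper87.TD.Gen

/-!
# Regular graphs of the same degree look the same to circuits with supports of two vertices
-/

set_option autoImplicit false

open Equiv Finset

namespace Pool.Agent.L5helper87.TD

open Pool.Agent.L5helper42.Sym Pool.Agent.L5helper87.SW

variable {β : Type} [Fintype β] [DecidableEq β]

/-- The even permutations which fix `B` are transitive on the pairs of different points outside. -/
lemma exists_gam {B : Finset β} (hB : B.card + 4 ≤ Fintype.card β) {v w v' w' : β}
    (hv : v ∉ B) (hw : w ∉ B) (hvw : v ≠ w) (hv' : v' ∉ B) (hw' : w' ∉ B) (hvw' : v' ≠ w') :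
    ∃ τ ∈ Gam B, τ v' = v ∧ τ w' = w := by
  classical
  have hcard : ∀ {v w : β}, v ≠ w → ∀ a : Fin 3,
      (univ.filter fun x => (if x = v then (0 : Fin 3) else if x = w then 1 else 2) = a).card =
        if a = 2 then Fintype.card β - 2 else 1 := by
    intro v w hvw a
    fin_cases a
    · have : (univ.filter fun x => (if x = v then (0 : Fin 3) else if x = w then 1 else 2) = 0) =
          {v} := by
        ext x
        simp only [mem_filter, mem_univ, true_and, mem_singleton]
        constructor
        · intro h
          by_contra h'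
          rw [if_neg h'] at h
          split_ifs at h
          all_goals exact absurd h (by decide)
        · intro h
          rw [if_pos h]
      simpa using congrArg card this
    · have : (univ.filter fun x => (if x = v then (0 : Fin 3) else if x = w then 1 else 2) = 1) =
          {w} := by
        ext x
        simp only [mem_filter, mem_univ, true_and, mem_singleton]
        constructor
        · intro h
          by_contra h'
          rw [if_neg h'] at h
          split_ifs at h
          all_goals exact absurd h (by decide)
        · intro h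
          rw [if_neg (fun h' => hvw (h'.symm.trans h)), if_pos h]
      simpa using congrArg card this
    · have : (univ.filter fun x => (if x = v then (0 : Fin 3) else if x = w then 1 else 2) = 2) =
          ({v, w} : Finset β)ᶜ := by
        ext x
        simp only [mem_filter, mem_univ, true_and, mem_compl, mem_insert, mem_singleton]
        constructor
        · rintro h (hxv | hxw)
          · rw [if_pos hxv] at h
            exact absurd h (by decide)
          · rw [if_neg (fun h' => hvw (h'.symm.trans hxw)), if_pos hxw] at h
            exact absurd h (by decide)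
        · intro h
          push Not at h
          rw [if_neg h.1, if_neg h.2]
      have h2 := congrArg card this
      rw [card_compl, card_pair hvw] at h2
      simpa using h2
  obtain ⟨u, u', hu, hu', huu⟩ : ∃ u u' : β, (u ∉ B ∧ u ≠ v' ∧ u ≠ w') ∧
      (u' ∉ B ∧ u' ≠ v' ∧ u' ≠ w') ∧ u ≠ u' := by
    have h1 : 2 ≤ ((B ∪ {v', w'})ᶜ : Finset β).card := by
      rw [card_compl]
      have := card_union_le B {v', w'}
      have := card_le_two (a := v') (b := w')
      omega
    obtain ⟨u, hu, u', hu', h⟩ := Finset.one_lt_card.1 h1
    simp only [mem_compl, mem_union, mem_insert, mem_singleton, not_or] at hu hu'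
    exact ⟨u, u', hu, hu', h⟩
  obtain ⟨τ, h1, h2, h3⟩ := exists_match_even
    (fun x => if x = v then (0 : Fin 3) else if x = w then 1 else 2)
    (fun x => if x = v' then (0 : Fin 3) else if x = w' then 1 else 2) B
    (fun b hb => by
      have e1 : b ≠ v := fun h => hv (h ▸ hb)
      have e2 : b ≠ w := fun h => hw (h ▸ hb)
      have e3 : b ≠ v' := fun h => hv' (h ▸ hb)
      have e4 : b ≠ w' := fun h => hw' (h ▸ hb)
      simp only [if_neg e1, if_neg e2, if_neg e3, if_neg e4])
    (fun a => by rw [hcard hvw, hcard hvw']) hu.1 hu'.1 huu
    (by simp only [if_neg hu.2.1, if_neg hu.2.2, if_neg hu'.2.1, if_neg hu'.2.2])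
  refine ⟨τ, mem_Gam.2 ⟨h1, h2⟩, ?_, ?_⟩
  · have := h3 v'
    simp only [if_true] at this
    by_contra h
    rw [if_neg h] at this
    split_ifs at this
    all_goals exact absurd this (by decide)
  · have := h3 w'
    simp only [if_neg hvw'.symm, if_true] at this
    by_contra h
    by_cases h4 : τ w' = v
    · rw [if_pos h4] at this
      exact absurd this (by decide)
    · rw [if_neg h4, if_neg h] at this
      exact absurd this (by decide)

/-- A regular graph of degree `d` on `β`. -/
def RegGraph (β : Type) [Fintype β] (d : ℕ) : Type :=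
  {a : SimpleGraph β // ∀ v, Nat.card {w // a.Adj v w} = d}

variable {d : ℕ}

/-- Renaming the vertices. -/
def rn (π : Perm β) (a : RegGraph β d) : RegGraph β d :=
  ⟨a.1.comap π.symm, fun v =>
    (Nat.card_congr (π.symm.subtypeEquiv fun _ => Iff.rfl)).trans (a.2 (π.symm v))⟩

open Classical in
lemma RegGraph.deg (a : RegGraph β d) (v : β) : (univ.filter fun w => a.1.Adj v w).card = d := by
  have := a.2 v
  rwa [Nat.card_eq_fintype_card, Fintype.card_subtype] at this

/-- Two graphs agree on `B`. -/
def Agree (B : Finset β) (a a' : RegGraph β d) : Prop :=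
  ∀ v ∈ B, ∀ w ∈ B, a.1.Adj v w ↔ a'.1.Adj v w

open Classical in
/-- The number of the neighbours outside of `B`. -/
lemma card_out (B : Finset β) (a : RegGraph β d) (v : β) :
    (univ.filter fun w => w ∉ B ∧ a.1.Adj v w).card =
      d - (B.filter fun w => a.1.Adj v w).card := by
  have h1 := a.deg v
  have h2 : (univ.filter fun w => a.1.Adj v w).card =
      (univ.filter fun w => w ∉ B ∧ a.1.Adj v w).card + (B.filter fun w => a.1.Adj v w).card := by
    rw [← card_union_of_disjoint]
    · congr 1
      ext w
      simp only [mem_filter, mem_univ, true_and, mem_union]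
      tauto
    · rw [disjoint_left]
      intro w hw hw'
      rw [mem_filter] at hw hw'
      exact hw.2.1 hw'.1
  omega

open Classical in
/-- The number of the ordered pairs of adjacent vertices outside of `B`. -/
lemma card_out_out {B : Finset β} {a a' : RegGraph β d} (h : Agree B a a') :
    ∑ v, ∑ w, (if v ∉ B ∧ w ∉ B ∧ a.1.Adj v w then 1 else 0) =
      ∑ v, ∑ w, (if v ∉ B ∧ w ∉ B ∧ a'.1.Adj v w then 1 else 0) := by
  have key : ∀ a : RegGraph β d,
      (∑ v, ∑ w, (if v ∉ B ∧ w ∉ B ∧ a.1.Adj v w then 1 else 0)) +
        ∑ v ∈ B, (d - (B.filter fun w => a.1.Adj v w).card) = Bᶜ.card * d := by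
    intro a
    have h1 : ∀ v, (∑ w, (if w ∉ B ∧ a.1.Adj v w then 1 else 0)) =
        d - (B.filter fun w => a.1.Adj v w).card := by
      intro v
      rw [← card_out, card_filter]
    have h2 : (∑ v, ∑ w, (if v ∉ B ∧ w ∉ B ∧ a.1.Adj v w then 1 else 0)) =
        ∑ v ∈ Bᶜ, ∑ w, (if w ∉ B ∧ a.1.Adj v w then 1 else 0) := by
      rw [← sum_filter_add_sum_filter_not univ (· ∉ B)]
      have h3 : ∑ v ∈ univ.filter (fun v => ¬ v ∉ B), ∑ w,
          (if v ∉ B ∧ w ∉ B ∧ a.1.Adj v w then 1 else 0) = 0 := by
        refine sum_eq_zero fun v hv => sum_eq_zero fun w _ => ?_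
        rw [mem_filter, not_not] at hv
        rw [if_neg fun h => h.1 hv.2]
      rw [h3, add_zero]
      refine sum_congr (by ext v; simp) fun v hv => sum_congr rfl fun w _ => ?_
      rw [mem_compl] at hv
      simp only [hv, not_false_eq_true, true_and]
    have h4 : ∑ v ∈ B, (d - (B.filter fun w => a.1.Adj v w).card) =
        ∑ v ∈ Bᶜ, (B.filter fun w => a.1.Adj v w).card := by
      calc ∑ v ∈ B, (d - (B.filter fun w => a.1.Adj v w).card)
          = ∑ v ∈ B, ∑ w ∈ Bᶜ, (if a.1.Adj v w then 1 else 0) := by
            refine sum_congr rfl fun v _ => ?_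
            rw [← card_out, ← card_filter]
            congr 1
            ext w
            simp
        _ = ∑ w ∈ Bᶜ, ∑ v ∈ B, (if a.1.Adj v w then 1 else 0) := sum_comm
        _ = _ := by
            refine sum_congr rfl fun v _ => ?_
            rw [card_filter]
            refine sum_congr rfl fun w _ => ?_
            simp only [a.1.adj_comm w v]
    rw [h2, h4, ← sum_add_distrib, ← smul_eq_mul, ← sum_const]
    refine sum_congr rfl fun v _ => ?_
    have h5 := card_out B a v
    have h6 : (B.filter fun w => a.1.Adj v w).card ≤ d := by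
      refine (card_le_card fun w hw => ?_).trans (a.deg v).le
      rw [mem_filter] at hw ⊢
      exact ⟨mem_univ _, hw.2⟩
    rw [← card_filter, h5]
    omega
  have h1 := key a
  have h2 := key a'
  have h3 : ∑ v ∈ B, (d - (B.filter fun w => a.1.Adj v w).card) =
      ∑ v ∈ B, (d - (B.filter fun w => a'.1.Adj v w).card) := by
    refine sum_congr rfl fun v hv => ?_
    congr 2
    exact filter_congr fun w hw => h v hv w hw
  omega

open Classical in
/-- The number of the even permutations fixing `B` which move `v` to `c` and `w` to `c'`. -/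
noncomputable def mv (B : Finset β) (c c' v w : β) : ℕ :=
  ((Gam B).filter fun π => π v = c ∧ π w = c').card

lemma mv_comp {B : Finset β} {c c' v w v' w' : β} {τ : Perm β} (hτ : τ ∈ Gam B) (h : τ v' = v)
    (h' : τ w' = w) : mv B c c' v w = mv B c c' v' w' := by
  classical
  unfold mv
  refine card_bij (fun π _ => π * τ) (fun π hπ => ?_) (fun π _ π' _ h => mul_right_cancel h)
    (fun π hπ => ?_)
  · rw [mem_filter] at hπ ⊢
    refine ⟨?_, by rw [Perm.mul_apply, h, hπ.2.1], by rw [Perm.mul_apply, h', hπ.2.2]⟩
    rw [← mul_mem_Gam hτ, mul_inv_cancel_right]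
    exact hπ.1
  · rw [mem_filter] at hπ
    refine ⟨π * τ⁻¹, mem_filter.2 ⟨(mul_mem_Gam hτ).2 hπ.1, ?_, ?_⟩, inv_mul_cancel_right _ _⟩
    · rw [Perm.mul_apply, ← h, show τ⁻¹ (τ v') = v' from τ.symm_apply_apply v']
      exact hπ.2.1
    · rw [Perm.mul_apply, ← h', show τ⁻¹ (τ w') = w' from τ.symm_apply_apply w']
      exact hπ.2.2

open Classical in
/-- The number of the renamings which make `c` and `c'` adjacent. -/
lemma card_adj {B : Finset β} (hB : B.card + 4 ≤ Fintype.card β) {a a' : RegGraph β d}
    (h : Agree B a a') (c c' : β) (hcc : c ≠ c') :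
    ((Gam B).filter fun π => (rn π a).1.Adj c c').card =
      ((Gam B).filter fun π => (rn π a').1.Adj c c').card := by
  -- expansion
  have hexp : ∀ a : RegGraph β d, ((Gam B).filter fun π => (rn π a).1.Adj c c').card =
      ∑ v, ∑ w, if a.1.Adj v w then mv B c c' v w else 0 := by
    intro a
    have h1 : ∀ v w, (if a.1.Adj v w then mv B c c' v w else 0) =
        ∑ π ∈ Gam B, if a.1.Adj v w ∧ π v = c ∧ π w = c' then 1 else 0 := by
      intro v w
      by_cases hvw : a.1.Adj v w
      · simp only [hvw, if_true, true_and]
        rw [mv, card_filter]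
      · simp [hvw]
    simp only [h1]
    rw [card_filter]
    have h2 : ∀ v, ∑ w, ∑ π ∈ Gam B, (if a.1.Adj v w ∧ π v = c ∧ π w = c' then 1 else 0) =
        ∑ π ∈ Gam B, ∑ w, (if a.1.Adj v w ∧ π v = c ∧ π w = c' then 1 else 0) := fun v => sum_comm
    simp only [h2]
    rw [sum_comm]
    refine sum_congr rfl fun π _ => ?_
    rw [sum_eq_single (π.symm c), sum_eq_single (π.symm c')]
    · simp only [apply_symm_apply, and_self, and_true]
      rfl
    · intro w _ hw
      rw [if_neg]
      rintro ⟨-, -, h⟩
      exact hw (by rw [← h, symm_apply_apply])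
    · intro h
      exact absurd (mem_univ _) h
    · intro v _ hv
      refine sum_eq_zero fun w _ => ?_
      rw [if_neg]
      rintro ⟨-, h, -⟩
      exact hv (by rw [← h, symm_apply_apply])
    · intro h
      exact absurd (mem_univ _) h
  -- vanishing
  have hfix : ∀ {v w : β} {π : Perm β}, π ∈ Gam B → (π v ∈ B ↔ v ∈ B) := by
    intro v w π hπ
    rw [mem_Gam] at hπ
    constructor
    · intro h
      have := hπ.2 _ h
      rwa [← π.injective this]
    · intro h
      rwa [hπ.2 _ h]
  have hz : ∀ v w, mv B c c' v w ≠ 0 → (v ∈ B ↔ c ∈ B) ∧ (w ∈ B ↔ c' ∈ B) ∧ (v ∈ B → v = c) ∧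
      (w ∈ B → w = c') ∧ v ≠ w := by
    intro v w h0
    obtain ⟨π, hπ⟩ := card_pos.1 (Nat.pos_of_ne_zero h0)
    rw [mem_filter] at hπ
    obtain ⟨h1, h2, h3⟩ := hπ
    refine ⟨?_, ?_, ?_, ?_, ?_⟩
    · rw [← h2, hfix (w := v) h1]
    · rw [← h3, hfix (w := v) h1]
    · intro h
      rw [← h2, (mem_Gam.1 h1).2 v h]
    · intro h
      rw [← h3, (mem_Gam.1 h1).2 w h]
    · rintro rfl
      exact hcc (h2.symm.trans h3)
  rw [hexp, hexp]
  by_cases hc : c ∈ B
  · by_cases hc' : c' ∈ B
    · -- both fixed
      have h1 : ∀ a : RegGraph β d, (∑ v, ∑ w, if a.1.Adj v w then mv B c c' v w else 0) =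
          if a.1.Adj c c' then mv B c c' c c' else 0 := by
        intro a
        rw [sum_eq_single c, sum_eq_single c']
        · intro w _ hw
          split_ifs
          · by_contra h0
            have := hz _ _ h0
            exact hw (this.2.2.2.1 (this.2.1.2 hc'))
          · rfl
        · intro h
          exact absurd (mem_univ _) h
        · intro v _ hv
          refine sum_eq_zero fun w _ => ?_
          split_ifs
          · by_contra h0
            have := hz _ _ h0
            exact hv (this.2.2.1 (this.1.2 hc))
          · rfl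
        · intro h
          exact absurd (mem_univ _) h
      rw [h1, h1]
      simp only [h c hc c' hc']
    · -- one fixed
      have h1 : ∀ a : RegGraph β d, (∑ v, ∑ w, if a.1.Adj v w then mv B c c' v w else 0) =
          (d - (B.filter fun w => a.1.Adj c w).card) * mv B c c' c c' := by
        intro a
        rw [sum_eq_single c]
        · rw [← card_out, ← smul_eq_mul, ← sum_const, sum_filter]
          refine sum_congr rfl fun w _ => ?_
          by_cases hw : w ∈ B
          · simp only [hw, not_true_eq_false, false_and, if_false]
            split_ifs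
            · by_contra h0
              have := hz _ _ h0
              exact hc' (this.2.1.1 hw)
            · rfl
          · simp only [hw, not_false_eq_true, true_and]
            split_ifs
            · have hcw : c ≠ w := fun h => hw (h ▸ hc)
              have hgam : ∃ τ ∈ Gam B, τ c = c ∧ τ w = c' := by
                -- choose an auxiliary point
                obtain ⟨z, hz1, hz2, hz3⟩ : ∃ z, z ∉ B ∧ z ≠ w ∧ z ≠ c' := by
                  have h1 : 0 < ((B ∪ {w, c'})ᶜ : Finset β).card := by
                    rw [card_compl]
                    have := card_union_le B {w, c'}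
                    have := card_le_two (a := w) (b := c')
                    omega
                  obtain ⟨z, hz⟩ := card_pos.1 h1
                  simp only [mem_compl, mem_union, mem_insert, mem_singleton, not_or] at hz
                  exact ⟨z, hz.1, hz.2.1, hz.2.2⟩
                obtain ⟨τ, h1, h2, -⟩ := exists_gam hB hc' hz1 hz3.symm hw hz1 hz2.symm
                exact ⟨τ, h1, (mem_Gam.1 h1).2 c hc, h2⟩
              obtain ⟨τ, h1, h2, h3⟩ := hgam
              exact (mv_comp h1 h2 h3).symm
            · rfl
        · intro v _ hv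
          refine sum_eq_zero fun w _ => ?_
          split_ifs
          · by_contra h0
            have := hz _ _ h0
            exact hv (this.2.2.1 (this.1.2 hc))
          · rfl
        · intro h
          exact absurd (mem_univ _) h
      rw [h1, h1]
      congr 3
      exact filter_congr fun w hw => h c hc w hw
  · by_cases hc' : c' ∈ B
    · have h1 : ∀ a : RegGraph β d, (∑ v, ∑ w, if a.1.Adj v w then mv B c c' v w else 0) =
          (d - (B.filter fun w => a.1.Adj c' w).card) * mv B c c' c c' := by
        intro a
        rw [sum_comm, sum_eq_single c']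
        · rw [← card_out, ← smul_eq_mul, ← sum_const, sum_filter]
          refine sum_congr rfl fun w _ => ?_
          by_cases hw : w ∈ B
          · simp only [hw, not_true_eq_false, false_and, if_false]
            split_ifs
            · by_contra h0
              have := hz _ _ h0
              exact hc (this.1.1 hw)
            · rfl
          · simp only [hw, not_false_eq_true, true_and, a.1.adj_comm w c']
            split_ifs
            · have hcw : c' ≠ w := fun h => hw (h ▸ hc')
              have hgam : ∃ τ ∈ Gam B, τ w = c ∧ τ c' = c' := by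
                obtain ⟨z, hz1, hz2, hz3⟩ : ∃ z, z ∉ B ∧ z ≠ w ∧ z ≠ c := by
                  have h1 : 0 < ((B ∪ {w, c})ᶜ : Finset β).card := by
                    rw [card_compl]
                    have := card_union_le B {w, c}
                    have := card_le_two (a := w) (b := c)
                    omega
                  obtain ⟨z, hz⟩ := card_pos.1 h1
                  simp only [mem_compl, mem_union, mem_insert, mem_singleton, not_or] at hz
                  exact ⟨z, hz.1, hz.2.1, hz.2.2⟩
                obtain ⟨τ, h1, h2, -⟩ := exists_gam hB hc hz1 hz3.symm hw hz1 hz2.symm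
                exact ⟨τ, h1, h2, (mem_Gam.1 h1).2 c' hc'⟩
              obtain ⟨τ, h1, h2, h3⟩ := hgam
              exact (mv_comp h1 h2 h3).symm
            · rfl
        · intro w _ hw
          refine sum_eq_zero fun v _ => ?_
          split_ifs
          · by_contra h0
            have := hz _ _ h0
            exact hw (this.2.2.2.1 (this.2.1.2 hc'))
          · rfl
        · intro h
          exact absurd (mem_univ _) h
      rw [h1, h1]
      congr 3
      exact filter_congr fun w hw => h c' hc' w hw
    · have h1 : ∀ a : RegGraph β d, (∑ v, ∑ w, if a.1.Adj v w then mv B c c' v w else 0) =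
          (∑ v, ∑ w, (if v ∉ B ∧ w ∉ B ∧ a.1.Adj v w then 1 else 0)) * mv B c c' c c' := by
        intro a
        rw [sum_mul]
        refine sum_congr rfl fun v _ => ?_
        rw [sum_mul]
        refine sum_congr rfl fun w _ => ?_
        by_cases hadj : a.1.Adj v w
        · by_cases hv : v ∈ B
          · simp only [hadj, if_true, hv, not_true_eq_false, false_and, if_false, zero_mul]
            by_contra h0
            exact hc ((hz _ _ h0).1.1 hv)
          · by_cases hw : w ∈ B
            · simp only [hadj, if_true, hw, not_true_eq_false, false_and, and_false, if_false,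
                zero_mul]
              by_contra h0
              exact hc' ((hz _ _ h0).2.1.1 hw)
            · simp only [hadj, if_true, hv, hw, not_false_eq_true, true_and, one_mul]
              obtain ⟨τ, h1, h2, h3⟩ := exists_gam hB hc hc' hcc hv hw hadj.ne
              exact (mv_comp h1 h2 h3).symm
        · simp [hadj]
      rw [h1, h1, card_out_out h]

/-- **The averages of local functions agree.** -/
lemma average_reg (h6 : 6 ≤ Fintype.card β) (G : RegGraph β d → ℕ) (B' : Finset β)
    (hB' : B'.card ≤ 2) (hG : ∀ a a', Agree B' a a' → G a = G a') (B : Finset β)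
    (hB : B.card ≤ 2) (a a' : RegGraph β d) (h : Agree B a a') :
    ∑ π ∈ Gam B, G (rn π a) = ∑ π ∈ Gam B, G (rn π a') := by
  classical
  by_cases h2 : ∃ c c', c ≠ c' ∧ B' = {c, c'}
  · obtain ⟨c, c', hcc, rfl⟩ := h2
    have hag : ∀ a a' : RegGraph β d, (a.1.Adj c c' ↔ a'.1.Adj c c') → G a = G a' := by
      intro a a' h
      refine hG a a' fun v hv w hw => ?_
      simp only [mem_insert, mem_singleton] at hv hw
      rcases hv with rfl | rfl <;> rcases hw with rfl | rfl
      · simp
      · exact h
      · rw [a.1.adj_comm, a'.1.adj_comm]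
        exact h
      · simp
    -- the two values
    obtain ⟨g₁, hg₁⟩ : ∃ g₁, ∀ b : RegGraph β d, b.1.Adj c c' → G b = g₁ := by
      by_cases hb : ∃ b : RegGraph β d, b.1.Adj c c'
      · obtain ⟨b, hb⟩ := hb
        exact ⟨G b, fun b' hb' => hag _ _ (by simp [hb, hb'])⟩
      · exact ⟨0, fun b hb' => absurd ⟨b, hb'⟩ hb⟩
    obtain ⟨g₂, hg₂⟩ : ∃ g₂, ∀ b : RegGraph β d, ¬ b.1.Adj c c' → G b = g₂ := by
      by_cases hb : ∃ b : RegGraph β d, ¬ b.1.Adj c c'
      · obtain ⟨b, hb⟩ := hb
        exact ⟨G b, fun b' hb' => hag _ _ (by simp [hb, hb'])⟩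
      · exact ⟨0, fun b hb' => absurd ⟨b, hb'⟩ hb⟩
    have hsum : ∀ a : RegGraph β d, ∑ π ∈ Gam B, G (rn π a) =
        ((Gam B).filter fun π => (rn π a).1.Adj c c').card * g₁ +
          ((Gam B).card - ((Gam B).filter fun π => (rn π a).1.Adj c c').card) * g₂ := by
      intro a
      rw [← sum_filter_add_sum_filter_not (Gam B) (fun π => (rn π a).1.Adj c c')]
      congr 1
      · rw [← smul_eq_mul, ← sum_const]
        exact sum_congr rfl fun π hπ => hg₁ _ (mem_filter.1 hπ).2
      · have h3 : ((Gam B).filter fun π => ¬ (rn π a).1.Adj c c').card =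
            (Gam B).card - ((Gam B).filter fun π => (rn π a).1.Adj c c').card := by
          rw [← card_filter_add_card_filter_not (s := Gam B) (fun π => (rn π a).1.Adj c c')]
          omega
        rw [← h3, ← smul_eq_mul, ← sum_const]
        exact sum_congr rfl fun π hπ => hg₂ _ (mem_filter.1 hπ).2
    rw [hsum, hsum, card_adj (by omega) h c c' hcc]
  · have hone : ∀ v ∈ B', ∀ w ∈ B', v = w := by
      intro v hv w hw
      by_contra hvw
      apply h2
      refine ⟨v, w, hvw, ?_⟩
      symm
      apply eq_of_subset_of_card_le
      · intro x hx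
        simp only [mem_insert, mem_singleton] at hx
        rcases hx with rfl | rfl
        · exact hv
        · exact hw
      · rw [card_pair hvw]
        exact hB'
    refine sum_congr rfl fun π _ => hG _ _ fun v hv w hw => ?_
    rw [hone v hv w hw]
    simp

end Pool.Agent.L5helper87.TD
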