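import Pool.Agent.L5helper87.TD.Low

/-!
# The naive symmetric circuit
-/

set_option autoImplicit false

open Equiv Finset

namespace Pool.Agent.L5helper87.TD

open Pool.Agent.L5helper42.Sym Pool.Agent.L5helper87.SW

/-- The sets of three vertices. -/
abbrev Tri (n : ℕ) : Type := {T : Finset (Fin n) // T ∈ (univ : Finset (Fin n)).powersetCard 3}

lemma card_tri (n : ℕ) : Fintype.card (Tri n) = n.choose 3 := by
  rw [Fintype.card_coe, card_powersetCard, card_univ, Fintype.card_fin]

/-- The numbering of the gates: the last one is the output. -/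
noncomputable def num (n : ℕ) : Fin (n.choose 3 + 1) ≃ Option (Tri n) :=
  finSuccEquivLast.trans (Equiv.optionCongr (Fintype.equivFinOfCardEq (card_tri n)).symm)

lemma num_none (n : ℕ) {g : Fin (n.choose 3 + 1)} (h : num n g = none) : g = Fin.last _ := by
  unfold num at h
  rw [Equiv.trans_apply, Equiv.optionCongr_apply, Option.map_eq_none_iff] at h
  have := congrArg finSuccEquivLast.symm h
  simpa using this

/-- A pair of different elements of `T`. -/
def InT {n : ℕ} (T : Finset (Fin n)) (e : Sym2 (Fin n)) : Prop := ¬ e.IsDiag ∧ ∀ v ∈ e, v ∈ T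

open Classical in
/-- The naive circuit: an AND gate for each set of three vertices, and one OR gate. -/
noncomputable def naive (n : ℕ) : Circ (Sym2 (Fin n)) (n.choose 3 + 1) where
  wires g u := match num n g, u with
    | some T, Sum.inl e => if InT T.1 e then 1 else 0
    | some _, Sum.inr _ => 0
    | none, Sum.inl _ => 0
    | none, Sum.inr h => if num n h = none then 0 else 1
  acyclic g h hgh := by
    cases hg : num n g with
    | some T => simp [hg] at hgh
    | none =>
      simp only [hg] at hgh
      have h1 := num_none n hg
      have h2 : num n h ≠ none := by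
        intro h3
        rw [if_pos h3] at hgh
        exact hgh rfl
      rw [h1]
      refine lt_of_le_of_ne (Fin.le_last _) ?_
      rintro rfl
      rw [← h1] at h2
      exact h2 hg
  fn g c := match num n g with
    | some _ => decide (c = 3)
    | none => decide (c ≠ 0)
  out := (num n).symm none

lemma wires_some_inl {n : ℕ} {g : Fin (n.choose 3 + 1)} {T : Tri n} (h : num n g = some T)
    (e : Sym2 (Fin n)) [Decidable (InT T.1 e)] :
    (naive n).wires g (Sum.inl e) = if InT T.1 e then 1 else 0 := by
  simp only [naive, h]
  congr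

lemma wires_some_inr {n : ℕ} {g : Fin (n.choose 3 + 1)} {T : Tri n} (h : num n g = some T)
    (k : Fin (n.choose 3 + 1)) : (naive n).wires g (Sum.inr k) = 0 := by
  simp only [naive, h]

lemma wires_none_inl {n : ℕ} {g : Fin (n.choose 3 + 1)} (h : num n g = none)
    (e : Sym2 (Fin n)) : (naive n).wires g (Sum.inl e) = 0 := by
  simp only [naive, h]

lemma wires_none_inr {n : ℕ} {g : Fin (n.choose 3 + 1)} (h : num n g = none)
    (k : Fin (n.choose 3 + 1)) :
    (naive n).wires g (Sum.inr k) = if num n k = none then 0 else 1 := by
  simp only [naive, h]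

lemma fn_some {n : ℕ} {g : Fin (n.choose 3 + 1)} {T : Tri n} (h : num n g = some T) (c : ℕ) :
    (naive n).fn g c = decide (c = 3) := by
  simp only [naive, h]

lemma fn_none {n : ℕ} {g : Fin (n.choose 3 + 1)} (h : num n g = none) (c : ℕ) :
    (naive n).fn g c = decide (c ≠ 0) := by
  simp only [naive, h]

open Classical in
/-- The value of an AND gate. -/
lemma val_some {n : ℕ} (G : SimpleGraph (Fin n)) {g : Fin (n.choose 3 + 1)} {T : Tri n}
    (h : num n g = some T) :
    (naive n).val (bits G) g = true ↔ ∀ u ∈ T.1, ∀ v ∈ T.1, u ≠ v → G.Adj u v := by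
  have hT : T.1.card = 3 := (mem_powersetCard.1 T.2).2
  obtain ⟨a, b, c, hab, hac, hbc, hTe⟩ := card_eq_three.1 hT
  rw [Circ.val_eq, fn_some h, decide_eq_true_iff]
  have hcount : (naive n).count (bits G) g =
      ((univ.filter fun e => InT T.1 e).filter fun e => bits G e = true).card := by
    unfold Circ.count
    rw [Fintype.sum_sum_type]
    have h1 : ∑ k, (if (naive n).nval (bits G) (Sum.inr k) then (naive n).wires g (Sum.inr k) else 0)
        = 0 := by
      refine sum_eq_zero fun k _ => ?_
      rw [wires_some_inr h]
      simp
    rw [h1, add_zero, filter_filter, card_filter]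
    refine sum_congr rfl fun e _ => ?_
    rw [wires_some_inl h]
    change (if bits G e = true then _ else 0) = _
    by_cases h2 : bits G e = true <;> by_cases h3 : InT T.1 e <;> simp [h2, h3]
  have hset : (univ.filter fun e => InT T.1 e) = {s(a, b), s(a, c), s(b, c)} := by
    ext e
    induction e using Sym2.ind with
    | _ u v =>
      simp only [mem_filter, mem_univ, true_and, mem_insert, mem_singleton, InT, Sym2.mk_isDiag_iff,
        Sym2.mem_iff, forall_eq_or_imp, forall_eq, hTe]
      constructor
      · rintro ⟨h1, h2, h3⟩
        rcases h2 with rfl | rfl | rfl <;> rcases h3 with rfl | rfl | rfl <;>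
          simp_all [Sym2.eq_swap]
      · rintro (h | h | h) <;> rw [Sym2.eq_iff] at h <;> rcases h with ⟨rfl, rfl⟩ | ⟨rfl, rfl⟩ <;>
          refine ⟨?_, by simp, by simp⟩
        · exact hab
        · exact fun h => hab h.symm
        · exact hac
        · exact fun h => hac h.symm
        · exact hbc
        · exact fun h => hbc h.symm
  have hcard : (univ.filter fun e => InT T.1 e).card = 3 := by
    rw [hset, card_eq_three]
    refine ⟨_, _, _, ?_, ?_, ?_, rfl⟩
    · rw [Ne, Sym2.eq_iff]
      rintro (⟨-, h⟩ | ⟨h, -⟩)
      · exact hbc h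
      · exact hac h
    · rw [Ne, Sym2.eq_iff]
      rintro (⟨h, -⟩ | ⟨h, -⟩)
      · exact hab h
      · exact hac h
    · rw [Ne, Sym2.eq_iff]
      rintro (⟨h, -⟩ | ⟨h, -⟩)
      · exact hab h
      · exact hac h
  rw [hcount]
  constructor
  · intro h1 u hu v hv huv
    have h2 : (univ.filter fun e => InT T.1 e).filter (fun e => bits G e = true) =
        univ.filter fun e => InT T.1 e :=
      eq_of_subset_of_card_le (filter_subset _ _) (by rw [h1, hcard])
    have h3 : s(u, v) ∈ univ.filter fun e => InT T.1 e := by
      rw [mem_filter]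
      refine ⟨mem_univ _, by simpa using huv, fun w hw => ?_⟩
      rw [Sym2.mem_iff] at hw
      rcases hw with rfl | rfl
      · exact hu
      · exact hv
    rw [← h2, mem_filter] at h3
    have h4 := h3.2
    unfold bits at h4
    rw [decide_eq_true_iff, SimpleGraph.mem_edgeSet] at h4
    exact h4
  · intro h1
    rw [filter_true_of_mem, hcard]
    intro e he
    rw [mem_filter] at he
    obtain ⟨-, h2, h3⟩ := he
    induction e using Sym2.ind with
    | _ u v =>
      unfold bits
      rw [decide_eq_true_iff, SimpleGraph.mem_edgeSet]
      exact h1 u (h3 u (by simp)) v (h3 v (by simp)) (by simpa using h2)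

/-- The naive circuit is correct. -/
theorem naive_correct (n : ℕ) (G : SimpleGraph (Fin n)) :
    (naive n).val (bits G) (naive n).out = true ↔ HasTriangle G := by
  classical
  have hout : num n (naive n).out = none := (num n).apply_symm_apply none
  rw [Circ.val_eq, fn_none hout, decide_eq_true_iff]
  have h1 : (naive n).count (bits G) (naive n).out ≠ 0 ↔
      ∃ k, (naive n).val (bits G) k = true ∧ num n k ≠ none := by
    unfold Circ.count
    rw [Fintype.sum_sum_type]
    have h2 : ∑ e, (if (naive n).nval (bits G) (Sum.inl e) then
        (naive n).wires (naive n).out (Sum.inl e) else 0) = 0 := by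
      refine sum_eq_zero fun k _ => ?_
      rw [wires_none_inl hout]
      simp
    rw [h2, zero_add, Ne, sum_eq_zero_iff]
    push Not
    constructor
    · rintro ⟨k, -, hk⟩
      rw [wires_none_inr hout] at hk
      refine ⟨k, ?_, ?_⟩
      · by_contra h3
        apply hk
        rw [if_neg]
        exact h3
      · intro h3
        apply hk
        rw [if_pos h3]
        simp
    · rintro ⟨k, hk1, hk2⟩
      refine ⟨k, mem_univ _, ?_⟩
      rw [wires_none_inr hout, if_neg hk2, if_pos]
      · norm_num
      · exact hk1
  rw [h1]
  constructor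
  · rintro ⟨k, hk1, hk2⟩
    obtain ⟨T, hT⟩ := Option.ne_none_iff_exists'.1 hk2
    rw [val_some G hT] at hk1
    have hT3 : T.1.card = 3 := (mem_powersetCard.1 T.2).2
    obtain ⟨a, b, c, hab, hac, hbc, hTe⟩ := card_eq_three.1 hT3
    rw [hTe] at hk1
    exact ⟨a, b, c, hk1 a (by simp) b (by simp) hab, hk1 b (by simp) c (by simp) hbc,
      hk1 a (by simp) c (by simp) hac⟩
  · rintro ⟨a, b, c, hab, hbc, hac⟩
    have hcard : ({a, b, c} : Finset (Fin n)).card = 3 :=
      card_eq_three.2 ⟨a, b, c, hab.ne, hac.ne, hbc.ne, rfl⟩
    set T : Tri n := ⟨{a, b, c}, mem_powersetCard.2 ⟨subset_univ _, hcard⟩⟩ with hT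
    refine ⟨(num n).symm (some T), ?_, by simp⟩
    rw [val_some G ((num n).apply_symm_apply _)]
    intro u hu v hv huv
    simp only [hT, mem_insert, mem_singleton] at hu hv
    rcases hu with rfl | rfl | rfl <;> rcases hv with rfl | rfl | rfl <;>
      first
      | exact absurd rfl huv
      | assumption
      | (apply SimpleGraph.Adj.symm; assumption)

/-- The action of a permutation of the vertices on the sets of three vertices. -/
def triPerm {n : ℕ} (π : Perm (Fin n)) : Perm (Tri n) where
  toFun T := ⟨T.1.map π.toEmbedding, by
    rw [mem_powersetCard]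
    exact ⟨subset_univ _, by rw [card_map]; exact (mem_powersetCard.1 T.2).2⟩⟩
  invFun T := ⟨T.1.map π.symm.toEmbedding, by
    rw [mem_powersetCard]
    exact ⟨subset_univ _, by rw [card_map]; exact (mem_powersetCard.1 T.2).2⟩⟩
  left_inv T := by
    ext x
    simp
  right_inv T := by
    ext x
    simp

/-- The naive circuit is symmetric. -/
theorem naive_symmetric (n : ℕ) (D : Finset (Fin n)) : SymmetricOn (naive n) D := by
  classical
  intro π _
  set σ : Perm (Fin (n.choose 3 + 1)) :=
    ((num n).trans (Equiv.optionCongr (triPerm π))).trans (num n).symm with hσ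
  have hnum : ∀ g, num n (σ g) = (num n g).map (triPerm π) := by
    intro g
    simp [hσ]
  refine ⟨σ, ?_, fun g => ⟨?_, fun u => ?_⟩⟩
  · change σ ((num n).symm none) = (num n).symm none
    simp [hσ]
  · funext c
    cases hg : num n g with
    | none => rw [fn_none (by rw [hnum, hg]; rfl), fn_none hg]
    | some T => rw [fn_some (T := triPerm π T) (by rw [hnum, hg]; rfl), fn_some hg]
  · cases hg : num n g with
    | none =>
      have hg' : num n (σ g) = none := by rw [hnum, hg]; rfl
      cases u with
      | inl e => rw [Sum.map_inl, wires_none_inl hg', wires_none_inl hg]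
      | inr k =>
        rw [Sum.map_inr, wires_none_inr hg', wires_none_inr hg, hnum]
        simp only [Option.map_eq_none_iff]
    | some T =>
      have hg' : num n (σ g) = some (triPerm π T) := by rw [hnum, hg]; rfl
      cases u with
      | inl e =>
        rw [Sum.map_inl, wires_some_inl hg', wires_some_inl hg]
        have : InT (triPerm π T).1 (pairPerm π e) ↔ InT T.1 e := by
          induction e using Sym2.ind with
          | _ u v =>
            rw [pairPerm_mk]
            simp only [InT, Sym2.mk_isDiag_iff, Sym2.mem_iff, forall_eq_or_imp, forall_eq,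
              triPerm, coe_fn_mk, mem_map_equiv, symm_apply_apply, EmbeddingLike.apply_eq_iff_eq]
        simp only [this]
      | inr k => rw [Sum.map_inr, wires_some_inr hg', wires_some_inr hg]

end Pool.Agent.L5helper87.TD
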